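import Pool.Agent.Helper5.WD.Stmts
import Pool.Agent.Helper48.FV.SHF

/-!
Row GSHF of project WD: shifted ratios.
-/

set_option autoImplicit false

open Finset Pool.Agent.Helper8.UN Pool.Agent.Helper5.FV

namespace Pool.Agent.Helper5.WD

theorem st_GSHF (h1 : ST_GSTW) : ST_GSHF := by
  obtain ⟨n₀, h⟩ := h1
  refine ⟨n₀, fun n hn D0 r k j E W hR hW hk1 hk2 hj => ?_⟩
  refine SHF_core (fun i => (PP E W i : ℝ)) n k ((n : ℝ) / Real.log n) hk1 hk2 ?_ j hj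
  intro i hi1 hi2
  obtain ⟨a1, a2, a3, a4, a5⟩ := h n hn D0 r i E W hR hW hi1 hi2
  refine ⟨by exact_mod_cast a1, by exact_mod_cast a2, by exact_mod_cast a3, ?_, a5⟩
  refine le_trans ?_ a4
  have h0 : (0 : ℝ) ≤ (PP E W (i - 1) : ℝ) * PP E W (i + 1) := by positivity
  have h2 : (0 : ℝ) ≤ 999 / 1000 * ((W.card : ℝ) / ((i : ℝ) * (i + 1))) := by positivity
  nlinarith [mul_nonneg h2 h0]

end Pool.Agent.Helper5.WD
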